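import Pool.Agent.Y135.BQs

/-!
# Ten points: the good configurations form a neighbourhood
-/

set_option autoImplicit false

open MvPolynomial Filter Topology
open H4RC hiding Psi b0 map_nhds_Psi Psi_b0
open Pool.Agent.Y135.BQ

namespace Pool.Agent.Y914.TEN

/-- the open conditions -/
structure Op (b : EE) : Prop where
  nc1 : NC ![b.1 1, b.1 2, b.1 3, b.1 4, b.1 5, b.1 7]
  nc2 : NC ![b.1 0, b.1 1, b.1 2, b.1 3, b.1 4, b.1 5]
  inj : ∀ i j, i ≠ j → b.1 i ≠ b.1 j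
  ne : ∀ i, b.2.1 ≠ b.1 i
  G0xy : dxyT b.2.2.1 (b.1 0) ≠ 0
  G7 : evT b.2.2.1 (b.1 7) ≠ 0
  Gxx : dxT b.2.2.1 b.2.1 ≠ 0
  H0 : evT b.2.2.2.1 (b.1 0) ≠ 0
  Cpx : ∀ i, dxT b.2.2.2.2 (b.1 i) ≠ 0
  Cxx : dxT b.2.2.2.2 b.2.1 ≠ 0
  JG : ∀ i, i ≠ 0 → i ≠ 7 →
    dxT b.2.2.2.2 (b.1 i) * dyT b.2.2.1 (b.1 i) - dyT b.2.2.2.2 (b.1 i) * dxT b.2.2.1 (b.1 i) ≠ 0
  JH : ∀ i, i ≠ 0 → i ≠ 7 →
    dxT b.2.2.2.2 (b.1 i) * dyT b.2.2.2.1 (b.1 i)
      - dyT b.2.2.2.2 (b.1 i) * dxT b.2.2.2.1 (b.1 i) ≠ 0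

theorem op0_nc1 : NC ![P0 1, P0 2, P0 3, P0 4, P0 5, P0 7] := by
  intro h
  rw [← Matrix.exists_mulVec_eq_zero_iff] at h
  obtain ⟨v, hv, h⟩ := h
  apply hv
  have e0 := congrFun h 0
  have e1 := congrFun h 1
  have e2 := congrFun h 2
  have e3 := congrFun h 3
  have e4 := congrFun h 4
  have e5 := congrFun h 5
  simp [Matrix.mulVec, dotProduct, Fin.sum_univ_six, m6, P0] at e0 e1 e2 e3 e4 e5
  funext k
  fin_cases k
  · show v 0 = 0
    linear_combination (2/1 : ℂ) * e0 + (-2/1 : ℂ) * e1 + (-1/1 : ℂ) * e2 + (4/3 : ℂ) * e3 + (-1/3 : ℂ) * e4 + (1/1 : ℂ) * e5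
  · show v 1 = 0
    linear_combination (1/1 : ℂ) * e0 + (-1/1 : ℂ) * e1 + (-1/2 : ℂ) * e2 + (1/2 : ℂ) * e5
  · show v 2 = 0
    linear_combination (-1/2 : ℂ) * e0 + (1/2 : ℂ) * e1 + (1/2 : ℂ) * e2 + (-1/2 : ℂ) * e5
  · show v 3 = 0
    linear_combination (-1/1 : ℂ) * e0 + (1/1 : ℂ) * e1 + (1/2 : ℂ) * e2 + (-1/3 : ℂ) * e3 + (1/3 : ℂ) * e4 + (-1/2 : ℂ) * e5
  · show v 4 = 0
    linear_combination (-1/2 : ℂ) * e0 + (5/2 : ℂ) * e1 + (1/2 : ℂ) * e2 + (-3/2 : ℂ) * e3 + (-1/1 : ℂ) * e5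
  · show v 5 = 0
    linear_combination (-1/1 : ℂ) * e1 + (1/2 : ℂ) * e3 + (1/2 : ℂ) * e5

theorem op0_nc2 : NC ![P0 0, P0 1, P0 2, P0 3, P0 4, P0 5] := by
  intro h
  rw [← Matrix.exists_mulVec_eq_zero_iff] at h
  obtain ⟨v, hv, h⟩ := h
  apply hv
  have e0 := congrFun h 0
  have e1 := congrFun h 1
  have e2 := congrFun h 2
  have e3 := congrFun h 3
  have e4 := congrFun h 4
  have e5 := congrFun h 5
  simp [Matrix.mulVec, dotProduct, Fin.sum_univ_six, m6, P0] at e0 e1 e2 e3 e4 e5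
  funext k
  fin_cases k
  · show v 0 = 0
    linear_combination (1/1 : ℂ) * e0 + (1/3 : ℂ) * e4 + (-1/3 : ℂ) * e5
  · show v 1 = 0
    linear_combination (1/2 : ℂ) * e0 + (-1/2 : ℂ) * e4
  · show v 2 = 0
    linear_combination (-1/2 : ℂ) * e0 + (1/2 : ℂ) * e1 + (-1/2 : ℂ) * e2 + (1/2 : ℂ) * e4
  · show v 3 = 0
    linear_combination (-1/2 : ℂ) * e0 + (1/6 : ℂ) * e4 + (1/3 : ℂ) * e5
  · show v 4 = 0
    linear_combination (-1/1 : ℂ) * e0 + (3/2 : ℂ) * e1 + (1/2 : ℂ) * e2 + (-1/2 : ℂ) * e3 + (-1/2 : ℂ) * e4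
  · show v 5 = 0
    linear_combination (1/2 : ℂ) * e0 + (-1/1 : ℂ) * e1 + (1/2 : ℂ) * e3

theorem P0_inj : ∀ i j, i ≠ j → P0 i ≠ P0 j := by
  intro i j hij h
  have h0 := congrFun h 0
  have h1 := congrFun h 1
  fin_cases i <;> fin_cases j <;>
    first
    | exact hij rfl
    | (simp [P0] at h0; done)
    | (simp [P0] at h1; done)
    | (simp [P0] at h0; norm_num at h0; done)

theorem op0 : Op b0 where
  nc1 := op0_nc1
  nc2 := op0_nc2
  inj := P0_inj
  ne := by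
    intro i h
    have h0 := congrFun h 0
    have h1 := congrFun h 1
    change x0 0 = P0 i 0 at h0
    change x0 1 = P0 i 1 at h1
    fin_cases i <;> simp [P0, x0] at h0
  G0xy := by
    change dxyT G0 (P0 0) ≠ 0
    simp [dxyT, Fin.sum_univ_eight, G0, P0, ea, eb]
    try norm_num
  G7 := by
    change evT G0 (P0 7) ≠ 0
    simp [evT, ev, mv, Fin.sum_univ_eight, G0, P0, ea, eb]
    try norm_num
  Gxx := by
    change dxT G0 x0 ≠ 0
    simp [dxT, dx, Fin.sum_univ_eight, G0, x0, ea, eb]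
    try norm_num
  H0 := by
    change evT H0 (P0 0) ≠ 0
    simp [evT, ev, mv, Fin.sum_univ_eight, H0, P0, ea, eb]
    try norm_num
  Cpx := by
    intro i
    change dxT C0 (P0 i) ≠ 0
    fin_cases i <;> simp [dxT, dx, Fin.sum_univ_eight, C0, P0, ea, eb] <;> norm_num
  Cxx := by
    change dxT C0 x0 ≠ 0
    simp [dxT, dx, Fin.sum_univ_eight, C0, x0, ea, eb]
    try norm_num
  JG := by
    intro i hi hi7
    change dxT C0 (P0 i) * dyT G0 (P0 i) - dyT C0 (P0 i) * dxT G0 (P0 i) ≠ 0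
    fin_cases i
    · exact absurd rfl hi
    · simp [dxT, dyT, dx, dy, Fin.sum_univ_eight, C0, G0, P0, ea, eb]
      try norm_num
    · simp [dxT, dyT, dx, dy, Fin.sum_univ_eight, C0, G0, P0, ea, eb]
      try norm_num
    · simp [dxT, dyT, dx, dy, Fin.sum_univ_eight, C0, G0, P0, ea, eb]
      try norm_num
    · simp [dxT, dyT, dx, dy, Fin.sum_univ_eight, C0, G0, P0, ea, eb]
      try norm_num
    · simp [dxT, dyT, dx, dy, Fin.sum_univ_eight, C0, G0, P0, ea, eb]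
      try norm_num
    · simp [dxT, dyT, dx, dy, Fin.sum_univ_eight, C0, G0, P0, ea, eb]
      try norm_num
    · exact absurd rfl hi7
  JH := by
    intro i hi hi7
    change dxT C0 (P0 i) * dyT H0 (P0 i) - dyT C0 (P0 i) * dxT H0 (P0 i) ≠ 0
    fin_cases i
    · exact absurd rfl hi
    · simp [dxT, dyT, dx, dy, Fin.sum_univ_eight, C0, H0, P0, ea, eb]
      try norm_num
    · simp [dxT, dyT, dx, dy, Fin.sum_univ_eight, C0, H0, P0, ea, eb]
      try norm_num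
    · simp [dxT, dyT, dx, dy, Fin.sum_univ_eight, C0, H0, P0, ea, eb]
      try norm_num
    · simp [dxT, dyT, dx, dy, Fin.sum_univ_eight, C0, H0, P0, ea, eb]
      try norm_num
    · simp [dxT, dyT, dx, dy, Fin.sum_univ_eight, C0, H0, P0, ea, eb]
      try norm_num
    · simp [dxT, dyT, dx, dy, Fin.sum_univ_eight, C0, H0, P0, ea, eb]
      try norm_num
    · exact absurd rfl hi7

theorem cev (A : EE → T3) (Z : EE → (Fin 2 → ℂ)) (hA : Continuous A) (hZ : Continuous Z) :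
    Continuous (fun b => evT (A b) (Z b)) := by
  unfold evT ev mv
  fun_prop

theorem cdx (A : EE → T3) (Z : EE → (Fin 2 → ℂ)) (hA : Continuous A) (hZ : Continuous Z) :
    Continuous (fun b => dxT (A b) (Z b)) := by
  unfold dxT dx
  fun_prop

theorem cdy (A : EE → T3) (Z : EE → (Fin 2 → ℂ)) (hA : Continuous A) (hZ : Continuous Z) :
    Continuous (fun b => dyT (A b) (Z b)) := by
  unfold dyT dy
  fun_prop

theorem cdxy (A : EE → T3) (Z : EE → (Fin 2 → ℂ)) (hA : Continuous A) (hZ : Continuous Z) :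
    Continuous (fun b => dxyT (A b) (Z b)) := by
  unfold dxyT
  fun_prop

theorem cnc (s : EE → Fin 6 → Fin 2 → ℂ) (hs : Continuous s) :
    Continuous (fun b => (Matrix.of (fun i k => m6 (s b i) k) : Matrix (Fin 6) (Fin 6) ℂ).det) := by
  apply Continuous.matrix_det
  refine continuous_matrix fun i j => ?_
  change Continuous fun b => m6 (s b i) j
  fin_cases j <;> simp [m6] <;> fun_prop

theorem op_ev : ∀ᶠ b : EE in 𝓝 b0, Op b := by
  have g0 := op0
  have hp : ∀ i, Continuous (fun b : EE => b.1 i) := fun i => by fun_prop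
  have hx : Continuous (fun b : EE => b.2.1) := by fun_prop
  have hG : Continuous (fun b : EE => b.2.2.1) := by fun_prop
  have hH : Continuous (fun b : EE => b.2.2.2.1) := by fun_prop
  have hC : Continuous (fun b : EE => b.2.2.2.2) := by fun_prop
  have E1 : ∀ᶠ b : EE in 𝓝 b0, NC ![b.1 1, b.1 2, b.1 3, b.1 4, b.1 5, b.1 7] := by
    refine (cnc _ ?_).continuousAt.eventually_ne g0.nc1
    refine continuous_pi fun i => ?_
    fin_cases i <;> simp <;> fun_prop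
  have E2 : ∀ᶠ b : EE in 𝓝 b0, NC ![b.1 0, b.1 1, b.1 2, b.1 3, b.1 4, b.1 5] := by
    refine (cnc _ ?_).continuousAt.eventually_ne g0.nc2
    refine continuous_pi fun i => ?_
    fin_cases i <;> simp <;> fun_prop
  have E3 : ∀ᶠ b : EE in 𝓝 b0, ∀ i j, i ≠ j → b.1 i ≠ b.1 j := by
    rw [Filter.eventually_all]
    intro i
    rw [Filter.eventually_all]
    intro j
    by_cases hij : i = j
    · exact Filter.Eventually.of_forall (fun x h => absurd hij h)
    · have hne : (fun b : EE => b.1 i) b0 ≠ (fun b : EE => b.1 j) b0 := g0.inj i j hij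
      filter_upwards [(isOpen_ne_fun (hp i) (hp j)).mem_nhds hne] with x hx _
      exact hx
  have E4 : ∀ᶠ b : EE in 𝓝 b0, ∀ i, b.2.1 ≠ b.1 i := by
    rw [Filter.eventually_all]
    intro i
    have hne : (fun b : EE => b.2.1) b0 ≠ (fun b : EE => b.1 i) b0 := g0.ne i
    exact (isOpen_ne_fun hx (hp i)).mem_nhds hne
  have E5 := (cdxy _ _ hG (hp 0)).continuousAt.eventually_ne g0.G0xy
  have E6 := (cev _ _ hG (hp 7)).continuousAt.eventually_ne g0.G7
  have E7 := (cdx _ _ hG hx).continuousAt.eventually_ne g0.Gxx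
  have E8 := (cev _ _ hH (hp 0)).continuousAt.eventually_ne g0.H0
  have E9 : ∀ᶠ b : EE in 𝓝 b0, ∀ i, dxT b.2.2.2.2 (b.1 i) ≠ 0 := by
    rw [Filter.eventually_all]
    intro i
    exact (cdx _ _ hC (hp i)).continuousAt.eventually_ne (g0.Cpx i)
  have E10 := (cdx _ _ hC hx).continuousAt.eventually_ne g0.Cxx
  have E11 : ∀ᶠ b : EE in 𝓝 b0, ∀ i, i ≠ 0 → i ≠ 7 →
      dxT b.2.2.2.2 (b.1 i) * dyT b.2.2.1 (b.1 i)
        - dyT b.2.2.2.2 (b.1 i) * dxT b.2.2.1 (b.1 i) ≠ 0 := by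
    rw [Filter.eventually_all]
    intro i
    by_cases hi : i ≠ 0 ∧ i ≠ 7
    · have h1 := ((cdx _ _ hC (hp i)).mul (cdy _ _ hG (hp i))).sub
        ((cdy _ _ hC (hp i)).mul (cdx _ _ hG (hp i)))
      filter_upwards [h1.continuousAt.eventually_ne (g0.JG i hi.1 hi.2)] with x hx _ _
      exact hx
    · exact Filter.Eventually.of_forall (fun x h h' => absurd ⟨h, h'⟩ hi)
  have E12 : ∀ᶠ b : EE in 𝓝 b0, ∀ i, i ≠ 0 → i ≠ 7 →
      dxT b.2.2.2.2 (b.1 i) * dyT b.2.2.2.1 (b.1 i)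
        - dyT b.2.2.2.2 (b.1 i) * dxT b.2.2.2.1 (b.1 i) ≠ 0 := by
    rw [Filter.eventually_all]
    intro i
    by_cases hi : i ≠ 0 ∧ i ≠ 7
    · have h1 := ((cdx _ _ hC (hp i)).mul (cdy _ _ hH (hp i))).sub
        ((cdy _ _ hC (hp i)).mul (cdx _ _ hH (hp i)))
      filter_upwards [h1.continuousAt.eventually_ne (g0.JH i hi.1 hi.2)] with x hx _ _
      exact hx
    · exact Filter.Eventually.of_forall (fun x h h' => absurd ⟨h, h'⟩ hi)
  filter_upwards [E1, E2, E3, E4, E5, E6, E7, E8, E9, E10, E11, E12] with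
    x h1 h2 h3 h4 h5 h6 h7 h8 h9 h10 h11 h12
  exact ⟨h1, h2, h3, h4, h5, h6, h7, h8, h9, h10, h11, h12⟩

theorem main_OPEN : S_OPEN := by
  have h1 : Psi '' {b | Op b} ∈ 𝓝 (Psi b0) := by
    rw [← map_nhds_Psi]
    exact Filter.image_mem_map op_ev
  rw [Psi_b0] at h1
  have hι : Continuous (fun p : Fin 8 → Fin 2 → ℂ => ((p, 0, rG, rG, rC) : EE)) := by fun_prop
  have h2 := hι.continuousAt.preimage_mem_nhds h1
  filter_upwards [h2] with p hp
  obtain ⟨⟨q, x, G, H, C⟩, hb, hbe⟩ := hp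
  have e1 : q = p := congrArg (fun w : EE => w.1) hbe
  subst e1
  have ex : ![evT G x, evT H x] = 0 := congrArg (fun w : EE => w.2.1) hbe
  have eG : lnG G q = rG := congrArg (fun w : EE => w.2.2.1) hbe
  have eH : lnH H q = rG := congrArg (fun w : EE => w.2.2.2.1) hbe
  have eC : lnC C q x = rC := congrArg (fun w : EE => w.2.2.2.2) hbe
  have hGi : ∀ k : Fin 8, (lnG G q).2.2 k = rG.2.2 k := fun k => by rw [eG]
  have hHi : ∀ k : Fin 8, (lnH H q).2.2 k = rG.2.2 k := fun k => by rw [eH]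
  have hCi : ∀ k : Fin 8, (lnC C q x).2.2 k = rC.2.2 k := fun k => by rw [eC]
  refine ⟨x, G, H, C, ?_⟩
  refine
    { nc1 := hb.nc1
      nc2 := hb.nc2
      inj := hb.inj
      ne := hb.ne
      G0 := by simpa [lnG, rG] using hGi 0
      G0x := by simpa [lnG, rG] using congrArg (fun w : T3 => w.1) eG
      G0y := by simpa [lnG, rG] using congrArg (fun w : T3 => w.2.1) eG
      G0xy := hb.G0xy
      Gp := ?_
      G7 := hb.G7
      Gx := by simpa using congrFun ex 0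
      Gxx := hb.Gxx
      H7 := by simpa [lnH, rG] using hHi 0
      H7x := by simpa [lnH, rG] using congrArg (fun w : T3 => w.1) eH
      H7y := by simpa [lnH, rG] using congrArg (fun w : T3 => w.2.1) eH
      Hp := ?_
      H0 := hb.H0
      Hx := by simpa using congrFun ex 1
      Cp := ?_
      Cx := by simpa [lnC, rC] using congrArg (fun w : T3 => w.1) eC
      Cpx := hb.Cpx
      Cxx := hb.Cxx
      JG := hb.JG
      JH := hb.JH }
  · intro i hi hi7
    have h3 := hGi i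
    fin_cases i <;> first | exact absurd rfl hi | exact absurd rfl hi7 | simpa [lnG, rG] using h3
  · intro i hi hi7
    have h3 := hHi i
    fin_cases i <;> first | exact absurd rfl hi | exact absurd rfl hi7 | simpa [lnH, rG] using h3
  · intro i
    have h3 := hCi i
    fin_cases i <;> simpa [lnC, rC] using h3

end Pool.Agent.Y914.TEN
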